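import Pool.Agent.J6H45.CoordRestr.Main

/-!
# On bounded sets, diffeomorphisms are compositions of homeomorphisms changing one coordinate

For every `C^1` diffeomorphism `h` of `E^n` and every bounded set `B` there is a composition of
finitely many homeomorphisms of `E^n`, each changing only one coordinate, which is equal to `h` on `B`:
no approximation is needed.
-/

namespace Pool.Agent.Results.MP_0907b2_gt.DiffeosExact

open Pool.Agent.J6H45.CoordRestr

/-- **On every bounded set, every `C^1` diffeomorphism of `E^n` is equal to a member of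
`G(S_A^n)`.** -/
theorem result (n : ℕ) (h : E n ≃ₜ E n) (hh : ContDiff ℝ 1 h) (hh' : ContDiff ℝ 1 h.symm)
    (B : Set (E n)) (hB : Bornology.IsBounded B) : ∃ g ∈ GA n, ∀ x ∈ B, g x = h x :=
  diffeo_agree_GA ⟨hh, hh'⟩ hB

end Pool.Agent.Results.MP_0907b2_gt.DiffeosExact
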