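import Pool.Agent.J6H9.PL.All2

/-!
# The homeomorphisms of `E^n` approximable by maps changing one coordinate are the limits of the piecewise
# linear homeomorphisms

Question Q1 asks whether every homeomorphism of `E^n` is approximable, uniformly on bounded sets, by the
group `G(S_A^n)` generated by the homeomorphisms which change only one coordinate.  We prove, for every
`n`, that the following classes of homeomorphisms of `E^n` are equal: those approximable by `G(S_A^n)`; by
piecewise linear homeomorphisms; by `C^∞` diffeomorphisms; by `C^1` diffeomorphisms.  In particular every
piecewise linear homeomorphism of `E^n` is approximable by `G(S_A^n)`.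

With the theorem of Moise, which the problem lists as known (every homeomorphism of `E^3` is a limit of
simplicial ones) the answer to Q1 is yes for `n = 3`.

`IsPL h`: each point has a neighbourhood on which `h` has everywhere the value of one of finitely many
affine maps.  A homeomorphism which is affine on each simplex of a locally finite triangulation has this
property.

The proof of the main step (piecewise linear homeomorphisms are limits of diffeomorphisms).  Let `Cl` be the
closure of the group of the `C^1` diffeomorphisms of `E^n`; it is a closed group.  A homeomorphism `h` which
agrees near each point `p` with a member `g_p` of `Cl` is in `Cl`: a contraction `k` of a ball is a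
composition of diffeomorphisms with small supports, so `κ = h k^M h⁻¹ ∈ Cl`, and on the ball
`h = κ⁻¹ g_0 k^M`.  The germ of a piecewise linear homeomorphism at a point is a cone `A`, and near a
point different from the origin `A` is the product of a piecewise linear cone of dimension `n - 1` with a
line, up to a map changing one coordinate.  By induction on the dimension `A` is in `Cl` locally away from
the origin.  Let `A` be norm preserving (radial homeomorphisms are compositions of Lipschitz-small
perturbations of the identity), and let `f` be the diffeomorphism which is the identity near the origin and,
away from it, pushes the spheres by a Möbius transformation towards a point `p`, near which `A = g`.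
Then `(A f A⁻¹)⁻¹ g f` is in `Cl`, and it is equal to `A` outside a thin cone around `- p`, so that `A` is a
limit of such maps.  Conversely a function which is monotone in one coordinate is a limit of piecewise
linear ones, so that homeomorphisms changing one coordinate are limits of piecewise linear ones.
-/

set_option autoImplicit false

namespace Pool.Agent.Results.MP_0907b2_gt.LimitsOfPiecewiseLinear

open Pool.Agent.J6H45.CoordRestr
open Pool.Agent.J6H9.PL (IsPL)

/-- **For every `n` and every homeomorphism `h` of `E^n` the following are equivalent: `h` is approximable
by `G(S_A^n)`; by piecewise linear homeomorphisms; by `C^∞` diffeomorphisms; by `C^1` diffeomorphisms.** -/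
theorem result (n : ℕ) (h : E n ≃ₜ E n) :
    List.TFAE [Approximable (GA n : Set (E n ≃ₜ E n)) h, Approximable {k : E n ≃ₜ E n | IsPL k} h,
      Approximable (Diffeos n ⊤) h, Approximable (Diffeos n 1) h] := by
  have h0 := main_A h
  tfae_have 1 ↔ 4 := h0.out 0 2
  tfae_have 1 ↔ 3 := h0.out 0 1
  tfae_have 1 → 2 := fun hh => hh.trans fun k hk => Pool.Agent.J6H9.PL.GA_PL hk
  tfae_have 2 → 4 := fun hh => hh.trans fun k hk => Pool.Agent.J6H9.PL.sMain n k hk
  tfae_finish

end Pool.Agent.Results.MP_0907b2_gt.LimitsOfPiecewiseLinear
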