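import Pool.Agent.J6H9.PL.All

/-!
# Limits of piecewise linear homeomorphisms of `E^3` are limits of compositions of the maps
# `(x, y, z) ↦ (f (y, z), g (x, z), h (x, y))`

Question Q2 asks whether every homeomorphism of `E^3` is approximable, uniformly on bounded sets, by the
group `G(S_B)` generated by the homeomorphisms of the form `(x, y, z) ↦ (f (y, z), g (x, z), h (x, y))`.
We prove this for all the homeomorphisms which are limits of piecewise linear homeomorphisms (and also for
the limits of `C^1` diffeomorphisms and of members of `G(S_A^3)`).  Every homeomorphism of `E^3` is a limit
of simplicial homeomorphisms by the theorem of Moise, which the problem lists as known; so the answer to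
Q2 is yes.

`IsPL h`: each point has a neighbourhood on which `h` has everywhere the value of one of finitely many
affine maps.  A homeomorphism which is affine on each simplex of a locally finite triangulation of `E^3`
has this property.

The proof.  Let `Cl` be the closure of the group of the `C^1` diffeomorphisms of `E^n`; it is a closed
group.  A homeomorphism `h` which agrees near each point `p` with a member `g_p` of `Cl` is in `Cl`: a
contraction `k` of a ball is a composition of diffeomorphisms with small supports, so
`κ = h k^M h⁻¹ ∈ Cl`, and on the ball `h = κ⁻¹ g_0 k^M`.  The germ of a piecewise linear homeomorphism at a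
point is a cone `A`, and near a point different from the origin `A` is the product of a piecewise linear
cone of dimension `n - 1` with a line, up to a map changing one coordinate.  By induction on the dimension
`A` is in `Cl` locally away from the origin.  Let `A` be norm preserving (radial homeomorphisms are
compositions of Lipschitz-small perturbations of the identity), and let `f` be the diffeomorphism which is
the identity near the origin and, away from it, pushes the spheres by a Möbius transformation towards
a point `p`, near which `A = g`.  Then `(A f A⁻¹)⁻¹ g f` is in `Cl`, and it is equal to `A` outside a
thin cone around `- p`, which it maps to the same set as `A`, so that `A` is a limit of such maps.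
-/

set_option autoImplicit false

namespace Pool.Agent.Results.MP_0907b2_gt.TypeBPiecewiseLinear

open Pool.Agent.J6H45.CoordRestr
open Pool.Agent.J6H9.PL (IsPL)

/-- **A homeomorphism of `E^3` which is a limit of piecewise linear homeomorphisms (or of `C^1`
diffeomorphisms, or of members of `G(S_A^3)`) is approximable by `G(S_B)`.** -/
theorem result (h : E 3 ≃ₜ E 3)
    (hh : Approximable {k : E 3 ≃ₜ E 3 | IsPL k} h ∨ Approximable (Diffeos 3 1) h ∨
      Approximable (GA 3 : Set (E 3 ≃ₜ E 3)) h) :
    Approximable (GB : Set (E 3 ≃ₜ E 3)) h := by
  rcases hh with hh | hh | hh
  · exact main_B h (Or.inr (hh.trans fun k hk => Pool.Agent.J6H9.PL.sMain 3 k hk))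
  · exact main_B h (Or.inr hh)
  · exact main_B h (Or.inl hh)

end Pool.Agent.Results.MP_0907b2_gt.TypeBPiecewiseLinear
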